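import Pool.Agent.Y58.Onn.Cover

set_option autoImplicit false

namespace Pool.Agent.Y58.Onn

open Matrix

/-- the matrix with given coordinates -/
def toM (x : Fin 9 → ZMod 2) : Matrix (Fin 3) (Fin 3) (ZMod 2) :=
  !![x 0, x 1, x 2; x 3, x 4, x 5; x 6, x 7, x 8]

lemma toM_mul (x y : Fin 9 → ZMod 2) : toM x * toM y = toM (mul9 x y) := by
  ext i j
  fin_cases i <;> fin_cases j <;>
    simp [toM, mul9, Matrix.mul_apply, Fin.sum_univ_three]

lemma neg_zmod2 (x : ZMod 2) : -x = x := by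
  revert x; decide

lemma toM_det (x : Fin 9 → ZMod 2) : (toM x).det = det9 x := by
  rw [Matrix.det_fin_three]
  simp only [toM, det9, Matrix.of_apply, Matrix.cons_val', Matrix.cons_val_zero, Matrix.cons_val_one,
    Matrix.cons_val, sub_eq_add_neg, neg_zmod2]
  ring

lemma toM_one : toM one9 = 1 := by decide

lemma eq9_iff (x y : Fin 9 → ZMod 2) : eq9 x y = true ↔ toM x = toM y := by
  constructor
  · intro h
    simp only [eq9, Bool.and_eq_true, beq_iff_eq] at h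
    obtain ⟨⟨⟨⟨⟨⟨⟨⟨h0, h1⟩, h2⟩, h3⟩, h4⟩, h5⟩, h6⟩, h7⟩, h8⟩ := h
    simp only [toM, h0, h1, h2, h3, h4, h5, h6, h7, h8]
  · intro h
    simp only [eq9, Bool.and_eq_true, beq_iff_eq]
    have h' : ∀ i j, toM x i j = toM y i j := fun i j => by rw [h]
    refine ⟨⟨⟨⟨⟨⟨⟨⟨?_, ?_⟩, ?_⟩, ?_⟩, ?_⟩, ?_⟩, ?_⟩, ?_⟩, ?_⟩
    · exact h' 0 0
    · exact h' 0 1
    · exact h' 0 2
    · exact h' 1 0
    · exact h' 1 1
    · exact h' 1 2
    · exact h' 2 0
    · exact h' 2 1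
    · exact h' 2 2

/-- every matrix over `F_2` commutes with a nontrivial element of `GL_3(F_2)` -/
theorem exists_comm (β : Matrix (Fin 3) (Fin 3) (ZMod 2)) :
    ∃ g : GL (Fin 3) (ZMod 2), g ≠ 1 ∧
      (g : Matrix (Fin 3) (Fin 3) (ZMod 2)) * β = β * (g : Matrix (Fin 3) (Fin 3) (ZMod 2)) := by
  have h := cover9 (β 0 0) (β 0 1) (β 0 2) (β 1 0) (β 1 1) (β 1 2) (β 2 0) (β 2 1) (β 2 2)
  set x : Fin 9 → ZMod 2 :=
    ![β 0 0, β 0 1, β 0 2, β 1 0, β 1 1, β 1 2, β 2 0, β 2 1, β 2 2] with hx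
  have hβ : β = toM x := by
    ext i j
    fin_cases i <;> fin_cases j <;> rfl
  rw [List.any_eq_true] at h
  obtain ⟨g, -, hg⟩ := h
  simp only [good9, Bool.and_eq_true, beq_iff_eq, Bool.not_eq_true'] at hg
  obtain ⟨⟨h1, h2⟩, h3⟩ := hg
  rw [eq9_iff, ← toM_mul, ← toM_mul, ← hβ] at h3
  have hdet : IsUnit (toM g).det := by
    rw [toM_det, h1]; exact isUnit_one
  refine ⟨Matrix.GeneralLinearGroup.mk'' (toM g) hdet, ?_, h3⟩
  intro h4
  have h5 : toM g = 1 := congrArg Units.val h4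
  rw [← toM_one, ← eq9_iff, h2] at h5
  exact Bool.false_ne_true h5

end Pool.Agent.Y58.Onn
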