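import Pool.Agent.Y58.Onn.Ring
import Pool.Agent.Y58.Onn.Cover2

set_option autoImplicit false

namespace Pool.Agent.Y58.Onn

open Module Matrix

/-- commuting elements of a finite group have a common eigenvector -/
theorem exists_common {G : Type} [Group G] {V : Type} [AddCommGroup V] [Module ℂ V]
    (ρ : Representation ℂ G V) [FiniteDimensional ℂ V] (K : Set G)
    (hK : ∀ a ∈ K, ∀ b ∈ K, a * b = b * a) (W : Submodule ℂ V) (hW : W ≠ ⊥)
    (hinv : ∀ k ∈ K, ∀ w ∈ W, ρ k w ∈ W) :
    ∃ v ∈ W, v ≠ 0 ∧ ∀ k ∈ K, ∃ c : ℂ, ρ k v = c • v := by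
  classical
  let P : ℕ → Prop := fun n => ∃ W' : Submodule ℂ V, W' ≤ W ∧ W' ≠ ⊥ ∧
    (∀ k ∈ K, ∀ w ∈ W', ρ k w ∈ W') ∧ finrank ℂ W' = n
  have hP : ∃ n, P n := ⟨_, W, le_rfl, hW, hinv, rfl⟩
  obtain ⟨W', hle, hne, hW'inv, hn⟩ := Nat.find_spec hP
  obtain ⟨v, hv, hv0⟩ := Submodule.exists_mem_ne_zero_of_ne_bot hne
  refine ⟨v, hle hv, hv0, fun k hk => ?_⟩
  -- restrict `ρ k` to `W'`
  let f : W' →ₗ[ℂ] W' := (ρ k).restrict (hW'inv k hk)
  haveI : Nontrivial W' := Submodule.nontrivial_iff_ne_bot.2 hne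
  obtain ⟨c, hc⟩ := Module.End.exists_eigenvalue f
  obtain ⟨w, hw⟩ := hc.exists_hasEigenvector
  let E : Submodule ℂ V := W' ⊓ LinearMap.ker (ρ k - c • LinearMap.id)
  have hE : ∀ x, x ∈ E ↔ x ∈ W' ∧ ρ k x = c • x := by
    intro x
    rw [Submodule.mem_inf, LinearMap.mem_ker]
    simp [sub_eq_zero]
  have hEne : E ≠ ⊥ := by
    intro h
    have h1 : (w : V) ∈ E := by
      rw [hE]
      refine ⟨w.2, ?_⟩
      have := hw.apply_eq_smul
      exact congrArg Subtype.val this
    rw [h, Submodule.mem_bot] at h1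
    exact hw.2 (Subtype.ext h1)
  have hEinv : ∀ k' ∈ K, ∀ w ∈ E, ρ k' w ∈ E := by
    intro k' hk' x hx
    rw [hE] at hx ⊢
    refine ⟨hW'inv k' hk' x hx.1, ?_⟩
    rw [← Module.End.mul_apply, ← map_mul, hK k hk k' hk', map_mul, Module.End.mul_apply, hx.2,
      map_smul]
  have hEW : E = W' := by
    by_contra hcon
    have hlt : E < W' := lt_of_le_of_ne inf_le_left hcon
    have h1 : finrank ℂ E < finrank ℂ W' := Submodule.finrank_lt_finrank_of_lt hlt
    rw [hn] at h1
    exact Nat.find_min hP h1 ⟨E, hlt.le.trans hle, hEne, hEinv, rfl⟩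
  exact ⟨c, ((hE v).1 (hEW ▸ hv)).2⟩

/-- the sign character of `ZMod 2` -/
noncomputable def sg (t : ZMod 2) : ℂ := if t = 0 then 1 else -1

lemma sg_zero : sg 0 = 1 := if_pos rfl

lemma sg_one : sg 1 = -1 := if_neg (by decide)

lemma sg_add (a b : ZMod 2) : sg (a + b) = sg a * sg b := by
  have h : ∀ t : ZMod 2, t = 0 ∨ t = 1 := by decide
  rcases h a with rfl | rfl <;> rcases h b with rfl | rfl
  · rw [add_zero, sg_zero, one_mul]
  · rw [zero_add, sg_zero, one_mul]
  · rw [add_zero, sg_zero, mul_one]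
  · rw [show (1 : ZMod 2) + 1 = 0 by decide, sg_zero, sg_one]; norm_num

/-- every irreducible representation of `GL_3(A)` has dimension at most `84` if the residue field
has two elements -/
theorem finrank_le_84 {A : Type} [CommRing A] [Finite A] (L : LT A (ZMod 2)) {V : Type} [AddCommGroup V] [Module ℂ V] [FiniteDimensional ℂ V]
    [Nontrivial V] {ρ : Representation ℂ (GL (Fin 3) A) V} (hρ : Irr ρ) :
    finrank ℂ V ≤ 84 := by
  classical
  haveI : Finite (GL (Fin 3) A) := inferInstance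
  -- common eigenvector of the congruence kernel
  obtain ⟨v₀, -, hv₀, hker⟩ := exists_common ρ (Set.range L.u)
    (by
      rintro _ ⟨X, rfl⟩ _ ⟨Y, rfl⟩
      rw [L.u_mul, L.u_mul, add_comm])
    ⊤ (by exact top_ne_bot) (fun _ _ _ _ => Submodule.mem_top)
  have hψ' : ∀ X : Matrix (Fin 3) (Fin 3) A, ∃ c : ℂ, ρ (L.u X) v₀ = c • v₀ :=
    fun X => hker _ ⟨X, rfl⟩
  choose ψ hψ using hψ'
  have hψadd : ∀ X Y, ψ (X + Y) = ψ X * ψ Y := by
    intro X Y
    have h1 : ψ (X + Y) • v₀ = (ψ X * ψ Y) • v₀ := by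
      rw [← hψ, ← L.u_mul, map_mul, Module.End.mul_apply, hψ, map_smul, hψ, smul_smul, mul_comm]
    exact smul_left_injective ℂ hv₀ h1
  have hψcongr : ∀ X Y : Matrix (Fin 3) (Fin 3) A, (∀ i j, L.red (X i j) = L.red (Y i j)) →
      ψ X = ψ Y := by
    intro X Y h
    have h1 : ψ X • v₀ = ψ Y • v₀ := by rw [← hψ, ← hψ, L.u_congr h]
    exact smul_left_injective ℂ hv₀ h1
  have hψ0 : ψ 0 = 1 := by
    have h1 : ψ 0 • v₀ = (1 : ℂ) • v₀ := by rw [← hψ, L.u_zero, map_one]; simp
    exact smul_left_injective ℂ hv₀ h1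
  have hψsq : ∀ X, ψ X * ψ X = 1 := by
    intro X
    rw [← hψadd, ← hψ0]
    apply hψcongr
    intro i j
    rw [Matrix.add_apply, map_add, Matrix.zero_apply, map_zero, CharTwo.add_self_eq_zero]
  -- the matrix β
  let β : Matrix (Fin 3) (Fin 3) (ZMod 2) :=
    Matrix.of fun j i => if ψ (Matrix.single i j 1) = 1 then 0 else 1
  have hβ : ∀ i j (a : A), ψ (Matrix.single i j a) = sg (β j i * L.red a) := by
    intro i j a
    have h2 : ∀ t : ZMod 2, t = 0 ∨ t = 1 := by decide
    rcases h2 (L.red a) with h | h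
    · rw [h, mul_zero, sg_zero, ← hψ0]
      apply hψcongr
      intro i' j'
      rw [Matrix.zero_apply, map_zero, Matrix.single_apply]
      split_ifs
      · exact h
      · exact map_zero _
    · rw [h, mul_one]
      have h3 : ψ (Matrix.single i j a) = ψ (Matrix.single i j 1) := by
        apply hψcongr
        intro i' j'
        rw [Matrix.single_apply, Matrix.single_apply]
        split_ifs
        · rw [h, map_one]
        · rfl
      rw [h3]
      change _ = sg (if ψ (Matrix.single i j 1) = 1 then 0 else 1)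
      by_cases h4 : ψ (Matrix.single i j 1) = 1
      · rw [if_pos h4, sg_zero, h4]
      · rw [if_neg h4, sg_one]
        rcases mul_self_eq_one_iff.1 (hψsq (Matrix.single i j 1)) with h5 | h5
        · exact absurd h5 h4
        · exact h5
  have hψβ : ∀ X : Matrix (Fin 3) (Fin 3) A, ψ X = sg (Matrix.trace (β * L.red.mapMatrix X)) := by
    -- additive in X
    have hsum : ∀ (s : Finset (Fin 3 × Fin 3)) (F : Fin 3 × Fin 3 → Matrix (Fin 3) (Fin 3) A),
        (∀ x ∈ s, ψ (F x) = sg (Matrix.trace (β * L.red.mapMatrix (F x)))) →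
        ψ (∑ x ∈ s, F x) = sg (Matrix.trace (β * L.red.mapMatrix (∑ x ∈ s, F x))) := by
      intro s F
      induction s using Finset.induction_on with
      | empty =>
        intro _
        rw [Finset.sum_empty, hψ0, map_zero, mul_zero, Matrix.trace_zero, sg_zero]
      | insert x s hx ih =>
        intro h
        rw [Finset.sum_insert hx, hψadd, h x (Finset.mem_insert_self _ _),
          ih fun y hy => h y (Finset.mem_insert_of_mem hy), map_add, mul_add, Matrix.trace_add,
          sg_add]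
    intro X
    have h1 : X = ∑ x ∈ (Finset.univ : Finset (Fin 3 × Fin 3)), Matrix.single x.1 x.2 (X x.1 x.2) := by
      rw [← Finset.univ_product_univ, Finset.sum_product]
      exact Matrix.matrix_eq_sum_single X
    rw [h1]
    apply hsum
    rintro ⟨i, j⟩ -
    rw [hβ]
    congr 1
    have h3 : L.red.mapMatrix (Matrix.single i j (X i j)) = Matrix.single i j (L.red (X i j)) := by
      ext i' j'
      rw [RingHom.mapMatrix_apply, Matrix.map_apply, Matrix.single_apply, Matrix.single_apply]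
      split_ifs
      · rfl
      · exact map_zero _
    rw [h3, Matrix.trace_mul_single]
    rfl
  -- a nontrivial element commuting with β
  obtain ⟨gb, hgb1, hgb⟩ := exists_comm β
  obtain ⟨g, hg⟩ := L.r_surj gb
  have hgβ : ∀ X : Matrix (Fin 3) (Fin 3) A, ψ ((g⁻¹ : GL (Fin 3) A).val * X * g.val) = ψ X := by
    intro X
    rw [hψβ, hψβ]
    congr 1
    have e1 : L.red.mapMatrix g.val = gb.val := by
      rw [← hg]; rfl
    have e2 : L.red.mapMatrix (g⁻¹ : GL (Fin 3) A).val = (gb⁻¹ : GL (Fin 3) (ZMod 2)).val := by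
      rw [← hg, ← map_inv]; rfl
    rw [map_mul, map_mul, e1, e2]
    calc Matrix.trace (β * ((gb⁻¹ : GL (Fin 3) (ZMod 2)).val * L.red.mapMatrix X * gb.val))
        = Matrix.trace ((β * (gb⁻¹ : GL (Fin 3) (ZMod 2)).val * L.red.mapMatrix X) * gb.val) := by
          simp only [Matrix.mul_assoc]
      _ = Matrix.trace (gb.val * (β * (gb⁻¹ : GL (Fin 3) (ZMod 2)).val * L.red.mapMatrix X)) :=
          Matrix.trace_mul_comm _ _
      _ = Matrix.trace (gb.val * β * (gb⁻¹ : GL (Fin 3) (ZMod 2)).val * L.red.mapMatrix X) := by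
          simp only [Matrix.mul_assoc]
      _ = Matrix.trace (β * L.red.mapMatrix X) := by
          rw [hgb, Matrix.mul_assoc β, ← Units.val_mul, mul_inv_cancel, Units.val_one, mul_one]
  -- the isotypic subspace
  let W : Submodule ℂ V := ⨅ X : Matrix (Fin 3) (Fin 3) A,
    LinearMap.ker (ρ (L.u X) - ψ X • LinearMap.id)
  have hW : ∀ x, x ∈ W ↔ ∀ X, ρ (L.u X) x = ψ X • x := by
    intro x
    simp only [W, Submodule.mem_iInf, LinearMap.mem_ker, LinearMap.sub_apply, LinearMap.smul_apply,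
      LinearMap.id_coe, id_eq, sub_eq_zero]
  have hWne : W ≠ ⊥ := by
    intro h
    have h1 : v₀ ∈ W := (hW _).2 hψ
    rw [h, Submodule.mem_bot] at h1
    exact hv₀ h1
  have hWg : ∀ x ∈ W, ρ g x ∈ W := by
    intro x hx
    rw [hW] at hx ⊢
    intro X
    have h1 : L.u X * g = g * L.u ((g⁻¹ : GL (Fin 3) A).val * X * g.val) := by
      rw [← L.conj_u]; group
    rw [← Module.End.mul_apply, ← map_mul, h1, map_mul, Module.End.mul_apply, hx, map_smul, hgβ]
  obtain ⟨w, hwW, hw0, hwg⟩ := exists_common ρ {g}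
    (by
      rintro _ rfl _ rfl
      rfl) W hWne (by
      rintro _ rfl
      exact hWg)
  obtain ⟨c, hc⟩ := hwg g rfl
  -- the stabilizer of the line
  let H : Subgroup (GL (Fin 3) A) :=
    { carrier := {x | ∃ c : ℂ, ρ x w = c • w}
      one_mem' := ⟨1, by simp⟩
      mul_mem' := by
        rintro a b ⟨c, hc⟩ ⟨d, hd⟩
        exact ⟨d * c, by rw [map_mul, Module.End.mul_apply, hd, map_smul, hc, smul_smul]⟩
      inv_mem' := by
        rintro a ⟨c, hc⟩
        have hc0 : c ≠ 0 := by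
          rintro rfl
          rw [zero_smul] at hc
          apply hw0
          have : ρ a⁻¹ (ρ a w) = w := by
            rw [← Module.End.mul_apply, ← map_mul]; simp
          rw [← this, hc, map_zero]
        refine ⟨c⁻¹, ?_⟩
        have h1 : ρ a⁻¹ (ρ a w) = w := by
          rw [← Module.End.mul_apply, ← map_mul]; simp
        rw [hc, map_smul] at h1
        calc ρ a⁻¹ w = c⁻¹ • (c • ρ a⁻¹ w) := by rw [smul_smul, inv_mul_cancel₀ hc0, one_smul]
          _ = c⁻¹ • w := by rw [h1] }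
  have hHK : L.r.ker ≤ H := by
    intro x hx
    obtain ⟨X, rfl⟩ := L.exists_u hx
    exact ⟨_, (hW _).1 hwW X⟩
  have hgH : g ∈ H := ⟨c, hc⟩
  have hgK : g ∉ L.r.ker := by
    rw [MonoidHom.mem_ker, hg]
    exact hgb1
  have hidx : L.r.ker.index = 168 := by
    rw [Subgroup.index_ker, MonoidHom.range_eq_top.2 L.r_surj]
    rw [Subgroup.card_top, Matrix.card_GL_field]
    simp [Fin.prod_univ_three]
  have hmul : L.r.ker.relIndex H * H.index = 168 := by
    rw [Subgroup.relIndex_mul_index hHK, hidx]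
  have hrel1 : L.r.ker.relIndex H ≠ 1 := by
    intro h
    rw [Subgroup.relIndex_eq_one] at h
    exact hgK (h hgH)
  have hrel0 : L.r.ker.relIndex H ≠ 0 := by
    intro h
    rw [h, zero_mul] at hmul
    omega
  have hle : H.index ≤ 84 := by
    have h2 : 2 ≤ L.r.ker.relIndex H := by omega
    have h3 : 2 * H.index ≤ L.r.ker.relIndex H * H.index := Nat.mul_le_mul_right _ h2
    omega
  exact (finrank_le_index hρ H hw0 fun h hh => hh).trans hle

end Pool.Agent.Y58.Onn
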