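import Pool.Agent.Y58.Onn.PartA
import Pool.Agent.Y58.Onn.PartB

set_option autoImplicit false

namespace Pool.Agent.Y58.Onn

open IsLocalRing

/-- transport along an isomorphism of residue fields -/
def LT.trans {A k k' : Type} [CommRing A] [Field k] [Field k'] (L : LT A k) (e : k ≃+* k') :
    LT A k' where
  red := e.toRingHom.comp L.red
  π := L.π
  surj := e.surjective.comp L.surj
  sq := L.sq
  ker a := by
    rw [← L.ker]
    exact map_eq_zero_iff e e.injective
  ann a := by
    rw [L.ann]
    exact (map_eq_zero_iff e e.injective).symm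

lemma LT.finite {A k : Type} [CommRing A] [Field k] [Finite k] (L : LT A k) : Finite A := by
  choose s hs using L.surj
  refine Finite.of_surjective (fun x : k × k => s x.1 + L.π * s x.2) ?_
  intro a
  have h1 : L.red (a - s (L.red a)) = 0 := by rw [map_sub, hs, sub_self]
  obtain ⟨b, hb⟩ := (L.ker _).1 h1
  refine ⟨(L.red a, L.red b), ?_⟩
  have h2 : L.π * (b - s (L.red b)) = 0 := by rw [L.ann, map_sub, hs, sub_self]
  change s (L.red a) + L.π * s (L.red b) = a
  linear_combination - hb - h2

/-- the quotient of a discrete valuation ring by the square of its maximal ideal -/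
noncomputable def ofDVR (R : Type) [CommRing R] [IsDomain R] [IsDiscreteValuationRing R] (ϖ : R)
    (hϖ : Irreducible ϖ) : LT (R ⧸ maximalIdeal R ^ 2) (ResidueField R) where
  red := Ideal.Quotient.lift (maximalIdeal R ^ 2) (residue R) (fun a ha => by
    rw [residue_eq_zero_iff]
    exact Ideal.pow_le_self two_ne_zero ha)
  π := Ideal.Quotient.mk _ ϖ
  surj := Ideal.Quotient.lift_surjective_of_surjective _ _ residue_surjective
  sq := by
    rw [← map_mul, Ideal.Quotient.eq_zero_iff_mem, hϖ.maximalIdeal_eq, Ideal.span_singleton_pow,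
      Ideal.mem_span_singleton]
    exact ⟨1, by ring⟩
  ker a := by
    obtain ⟨a, rfl⟩ := Ideal.Quotient.mk_surjective a
    rw [Ideal.Quotient.lift_mk, residue_eq_zero_iff]
    constructor
    · intro h
      rw [hϖ.maximalIdeal_eq, Ideal.mem_span_singleton] at h
      obtain ⟨b, rfl⟩ := h
      exact ⟨Ideal.Quotient.mk _ b, by rw [← map_mul]⟩
    · rintro ⟨b, hb⟩
      obtain ⟨b, rfl⟩ := Ideal.Quotient.mk_surjective b
      rw [← map_mul, Ideal.Quotient.mk_eq_mk_iff_sub_mem] at hb
      have h1 : a - ϖ * b ∈ maximalIdeal R := Ideal.pow_le_self two_ne_zero hb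
      have h2 : ϖ * b ∈ maximalIdeal R := by
        rw [hϖ.maximalIdeal_eq, Ideal.mem_span_singleton]
        exact ⟨b, rfl⟩
      have h3 := Ideal.add_mem _ h1 h2
      rwa [sub_add_cancel] at h3
  ann a := by
    obtain ⟨a, rfl⟩ := Ideal.Quotient.mk_surjective a
    rw [Ideal.Quotient.lift_mk, residue_eq_zero_iff, ← map_mul, Ideal.Quotient.eq_zero_iff_mem,
      hϖ.maximalIdeal_eq, Ideal.span_singleton_pow, Ideal.mem_span_singleton,
      Ideal.mem_span_singleton, pow_two]
    exact mul_dvd_mul_iff_left hϖ.ne_zero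

/-- the polynomial `X^3 (X + 1) (X^2 + X + 1)` -/
noncomputable def D : Polynomial ℤ :=
  Polynomial.X ^ 3 * (Polynomial.X + 1) * (Polynomial.X ^ 2 + Polynomial.X + 1)

lemma D_eval (q : ℤ) : D.eval q = q ^ 3 * (q + 1) * (q ^ 2 + q + 1) := by
  simp [D]

lemma card_residueField (p : ℕ) [Fact p.Prime] : Nat.card (ResidueField ℤ_[p]) = p := by
  rw [Nat.card_congr (PadicInt.residueField (p := p)).toEquiv, Nat.card_zmod]

/-- a finite set of integer polynomials which contains, at every odd prime, the value of `D`,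
contains `D` -/
lemma D_mem (P : Finset (Polynomial ℤ))
    (h : ∀ p : ℕ, p.Prime → p ≠ 2 → ∃ d ∈ P, d.eval (p : ℤ) = D.eval (p : ℤ)) : D ∈ P := by
  classical
  by_contra hD
  have h1 : ∀ d ∈ P, Set.Finite {p : ℕ | d.eval (p : ℤ) = D.eval (p : ℤ)} := by
    intro d hd
    by_contra hinf
    have hinf' : Set.Infinite {x : ℤ | d.eval x = D.eval x} := by
      intro hfin
      apply hinf
      exact (hfin.preimage (Nat.cast_injective (R := ℤ)).injOn)
    exact hD ((Polynomial.eq_of_infinite_eval_eq d D hinf') ▸ hd)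
  have h2 : Set.Finite (⋃ d ∈ P, {p : ℕ | d.eval (p : ℤ) = D.eval (p : ℤ)}) :=
    P.finite_toSet.biUnion h1
  have h3 : Set.Finite {p : ℕ | p.Prime} := by
    refine (h2.union (Set.finite_singleton 2)).subset ?_
    intro p hp
    by_cases hp2 : p = 2
    · exact Or.inr hp2
    · obtain ⟨d, hd, hdp⟩ := h p hp hp2
      exact Or.inl (Set.mem_biUnion hd hdp)
  exact Nat.infinite_setOf_prime h3

end Pool.Agent.Y58.Onn
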