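import Mathlib

set_option autoImplicit false

namespace Pool.Agent.Y58.Onn

open Matrix

/-- product of 3x3 matrices over `F_2` in coordinates -/
def mul9 (x y : Fin 9 → ZMod 2) : Fin 9 → ZMod 2 :=
  ![x 0 * y 0 + x 1 * y 3 + x 2 * y 6, x 0 * y 1 + x 1 * y 4 + x 2 * y 7,
    x 0 * y 2 + x 1 * y 5 + x 2 * y 8,
    x 3 * y 0 + x 4 * y 3 + x 5 * y 6, x 3 * y 1 + x 4 * y 4 + x 5 * y 7,
    x 3 * y 2 + x 4 * y 5 + x 5 * y 8,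
    x 6 * y 0 + x 7 * y 3 + x 8 * y 6, x 6 * y 1 + x 7 * y 4 + x 8 * y 7,
    x 6 * y 2 + x 7 * y 5 + x 8 * y 8]

def det9 (x : Fin 9 → ZMod 2) : ZMod 2 :=
  x 0 * x 4 * x 8 + x 1 * x 5 * x 6 + x 2 * x 3 * x 7 + x 2 * x 4 * x 6 + x 1 * x 3 * x 8 +
    x 0 * x 5 * x 7

def one9 : Fin 9 → ZMod 2 := ![1, 0, 0, 0, 1, 0, 0, 0, 1]

def eq9 (x y : Fin 9 → ZMod 2) : Bool :=
  (x 0 == y 0) && (x 1 == y 1) && (x 2 == y 2) && (x 3 == y 3) && (x 4 == y 4) && (x 5 == y 5) &&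
    (x 6 == y 6) && (x 7 == y 7) && (x 8 == y 8)

def good9 (x g : Fin 9 → ZMod 2) : Bool :=
  (det9 g == 1) && !(eq9 g one9) && eq9 (mul9 g x) (mul9 x g)

def add9 (x y : Fin 9 → ZMod 2) : Fin 9 → ZMod 2 :=
  ![x 0 + y 0, x 1 + y 1, x 2 + y 2, x 3 + y 3, x 4 + y 4, x 5 + y 5, x 6 + y 6, x 7 + y 7,
    x 8 + y 8]

def cands (x : Fin 9 → ZMod 2) : List (Fin 9 → ZMod 2) :=
  [x, add9 one9 x, add9 (add9 one9 x) (mul9 x x),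
   ![1, 0, 0, 0, 1, 0, 0, 1, 1], ![1, 0, 0, 0, 1, 0, 1, 0, 1], ![1, 0, 0, 0, 1, 0, 1, 1, 1],
   ![1, 0, 0, 1, 1, 0, 0, 0, 1], ![1, 0, 0, 1, 1, 0, 1, 0, 1], ![1, 0, 0, 0, 1, 1, 0, 0, 1],
   ![1, 0, 0, 1, 1, 1, 0, 0, 1], ![1, 0, 0, 0, 0, 1, 0, 1, 0], ![1, 0, 0, 1, 0, 1, 1, 1, 0]]

theorem cover9 : ∀ a b c d e f g h i : ZMod 2,
    (cands ![a, b, c, d, e, f, g, h, i]).any (good9 ![a, b, c, d, e, f, g, h, i]) = true := by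
  decide +kernel

end Pool.Agent.Y58.Onn
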