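import Pool.Agent.Y58.Onn.Ring

set_option autoImplicit false

namespace Pool.Agent.Y58.Onn

open Module Matrix

/-- the embedding of the diagonal torus -/
def diagHom (k : Type) [Field k] : (Fin 3 → kˣ) →* GL (Fin 3) k :=
  (Units.map (Matrix.diagonalRingHom (Fin 3) k).toMonoidHom).comp
    (MulEquiv.piUnits (M := fun _ : Fin 3 => k)).symm.toMonoidHom

lemma diagHom_val {k : Type} [Field k] (d : Fin 3 → kˣ) :
    (diagHom k d : Matrix (Fin 3) (Fin 3) k) = Matrix.diagonal fun i => (d i : k) := rfl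

lemma diagHom_inj (k : Type) [Field k] : Function.Injective (diagHom k) := by
  intro d e h
  have h1 : (diagHom k d : Matrix (Fin 3) (Fin 3) k) = diagHom k e := by rw [h]
  rw [diagHom_val, diagHom_val] at h1
  funext i
  apply Units.ext
  have h2 := congrFun (congrFun h1 i) i
  simpa using h2

/-- the diagonal torus -/
def T (k : Type) [Field k] : Subgroup (GL (Fin 3) k) := (diagHom k).range

lemma mem_T {k : Type} [Field k] (g : GL (Fin 3) k) : g ∈ T k ↔ ∀ i j, i ≠ j → g i j = 0 := by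
  constructor
  · rintro ⟨d, rfl⟩ i j hij
    rw [diagHom_val, Matrix.diagonal_apply_ne _ hij]
  · intro h
    have h1 : (g : Matrix (Fin 3) (Fin 3) k) = Matrix.diagonal fun i => g i i := by
      ext i j
      by_cases hij : i = j
      · subst hij; simp
      · rw [Matrix.diagonal_apply_ne _ hij, h i j hij]
    have h2 : ∏ i, g i i ≠ 0 := by
      rw [← Matrix.det_diagonal, ← h1]
      exact ((Matrix.isUnit_iff_isUnit_det _).1 g.isUnit).ne_zero
    rw [Finset.prod_ne_zero_iff] at h2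
    refine ⟨fun i => Units.mk0 (g i i) (h2 i (Finset.mem_univ _)), ?_⟩
    apply Units.ext
    rw [diagHom_val]
    exact h1.symm

lemma card_T (k : Type) [Field k] [Finite k] : Nat.card (T k) = (Nat.card k - 1) ^ 3 := by
  have h1 : Nat.card (T k) = Nat.card (Fin 3 → kˣ) :=
    Nat.card_congr (MonoidHom.ofInjective (diagHom_inj k)).toEquiv.symm
  rw [h1, Nat.card_fun, Nat.card_units]
  simp

lemma index_T (k : Type) [Field k] [Finite k] :
    (T k).index = Nat.card k ^ 3 * (Nat.card k + 1) * (Nat.card k ^ 2 + Nat.card k + 1) := by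
  haveI := Fintype.ofFinite k
  have h1 := (T k).index_mul_card
  rw [card_T, Matrix.card_GL_field, ← Nat.card_eq_fintype_card] at h1
  simp only [Fin.prod_univ_three, Fin.val_zero, Fin.val_one, Fin.val_two, pow_zero, pow_one] at h1
  have hq : 2 ≤ Nat.card k := Finite.one_lt_card
  obtain ⟨m, hm⟩ : ∃ m, Nat.card k = m + 2 := ⟨Nat.card k - 2, by omega⟩
  rw [hm] at h1 ⊢
  have e1 : (m + 2) ^ 3 - 1 = (m + 1) * ((m + 2) ^ 2 + (m + 2) + 1) := by
    rw [Nat.sub_eq_iff_eq_add (Nat.one_le_pow _ _ (by omega))]; ring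
  have e2 : (m + 2) ^ 3 - (m + 2) = (m + 1) * ((m + 2) * ((m + 2) + 1)) := by
    rw [Nat.sub_eq_iff_eq_add (Nat.le_self_pow (by norm_num) _)]; ring
  have e3 : (m + 2) ^ 3 - (m + 2) ^ 2 = (m + 1) * (m + 2) ^ 2 := by
    rw [Nat.sub_eq_iff_eq_add (Nat.pow_le_pow_right (by omega) (by norm_num))]; ring
  rw [e1, e2, e3] at h1
  have h2 : (T k).index * (m + 1) ^ 3 =
      ((m + 2) ^ 3 * ((m + 2) + 1) * ((m + 2) ^ 2 + (m + 2) + 1)) * (m + 1) ^ 3 := by
    rw [show m + 2 - 1 = m + 1 by omega] at h1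
    rw [h1]; ring
  exact Nat.eq_of_mul_eq_mul_right (by positivity) h2

section
variable {A k : Type} [CommRing A] [Field k] (L : LT A k)

namespace LT

/-- the preimage of the diagonal torus -/
def S : Subgroup (GL (Fin 3) A) := (T k).comap L.r

lemma mem_S (g : GL (Fin 3) A) : g ∈ L.S ↔ ∀ i j, i ≠ j → L.red (g i j) = 0 := by
  rw [S, Subgroup.mem_comap, mem_T]
  rfl

lemma mul_zero_of_red {a b : A} (ha : L.red a = 0) (hb : L.red b = 0) : a * b = 0 := by
  obtain ⟨c, rfl⟩ := (L.ker a).1 ha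
  obtain ⟨d, rfl⟩ := (L.ker b).1 hb
  linear_combination (c * d) * L.sq

lemma mul_diag {g h : GL (Fin 3) A} (hg : g ∈ L.S) (hh : h ∈ L.S) (i : Fin 3) :
    (g * h) i i = g i i * h i i := by
  rw [mem_S] at hg hh
  rw [Units.val_mul, Matrix.mul_apply]
  rw [Finset.sum_eq_single i]
  · intro j _ hj
    exact L.mul_zero_of_red (hg i j hj.symm) (hh j i hj)
  · intro h
    exact absurd (Finset.mem_univ i) h

/-- the linear character of `S` -/
noncomputable def θ (χ : MulChar A ℂ) : L.S →* ℂ where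
  toFun g := χ ((g : GL (Fin 3) A) 1 1) * χ⁻¹ ((g : GL (Fin 3) A) 2 2)
  map_one' := by simp
  map_mul' g h := by
    rw [Subgroup.coe_mul, L.mul_diag g.2 h.2, L.mul_diag g.2 h.2, map_mul, map_mul]
    ring

lemma u_mem_S (X : Matrix (Fin 3) (Fin 3) A) : L.u X ∈ L.S := by
  rw [S, Subgroup.mem_comap, MonoidHom.mem_ker.1 (L.u_mem_ker X)]
  exact (T k).one_mem

lemma chi_inv (χ : MulChar A ℂ) (a : A) : χ⁻¹ (1 + L.π * a) = χ (1 - L.π * a) := by
  have h1 : (1 + L.π * a) * (1 - L.π * a) = 1 := by linear_combination (- a ^ 2) * L.sq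
  have h2 : χ (1 + L.π * a) * χ (1 - L.π * a) = 1 := by rw [← map_mul, h1, map_one]
  have h3 : χ (1 + L.π * a) * χ⁻¹ (1 + L.π * a) = 1 := by
    rw [← MulChar.mul_apply, mul_inv_cancel, MulChar.one_apply (L.isUnit_one_add a)]
  have h4 : χ (1 + L.π * a) ≠ 0 := left_ne_zero_of_mul_eq_one h2
  exact mul_left_cancel₀ h4 (h3.trans h2.symm)

lemma θ_u (χ : MulChar A ℂ) (X : Matrix (Fin 3) (Fin 3) A) (hX : L.u X ∈ L.S) :
    L.θ χ ⟨L.u X, hX⟩ = χ (1 + L.π * (X 1 1 - X 2 2)) := by
  change χ ((L.u X) 1 1) * χ⁻¹ ((L.u X) 2 2) = _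
  have e : ∀ i, (L.u X) i i = 1 + L.π * X i i := by
    intro i
    rw [u_val, Matrix.add_apply, Matrix.one_apply_eq, Matrix.smul_apply, smul_eq_mul]
  rw [e, e, chi_inv, ← map_mul]
  congr 1
  linear_combination (- X 1 1 * X 2 2) * L.sq

/-- the stabilizer of the character is contained in `S` -/
lemma stab (h2 : (2 : k) ≠ 0) (χ : MulChar A ℂ) (hχ : χ (1 + L.π) ≠ 1) (g : GL (Fin 3) A)
    (hg : ∀ X : Matrix (Fin 3) (Fin 3) A,
      χ (1 + L.π * (((g⁻¹ : GL (Fin 3) A).val * X * g.val) 1 1 -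
        ((g⁻¹ : GL (Fin 3) A).val * X * g.val) 2 2)) = χ (1 + L.π * (X 1 1 - X 2 2))) :
    g ∈ L.S := by
  -- the matrix β
  let β : Matrix (Fin 3) (Fin 3) A := Matrix.diagonal ![0, 1, -1]
  have key : ∀ (P Q : Matrix (Fin 3) (Fin 3) A) (i j : Fin 3) (a : A),
      (P * Matrix.single i j a * Q) 1 1 - (P * Matrix.single i j a * Q) 2 2 =
        a * (Q * β * P) j i := by
    intro P Q i j a
    have e : ∀ m, (P * Matrix.single i j a * Q) m m = P m i * a * Q j m := by
      intro m
      rw [Matrix.mul_assoc, Matrix.mul_apply, Finset.sum_eq_single i]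
      · rw [Matrix.mul_apply, Finset.sum_eq_single j]
        · rw [Matrix.single_apply_same]; ring
        · intro l _ hl
          rw [Matrix.single_apply_of_ne _ _ _ _ _ (fun h => hl h.2.symm), zero_mul]
        · intro h; exact absurd (Finset.mem_univ _) h
      · intro l _ hl
        rw [Matrix.mul_apply, Finset.sum_eq_zero, mul_zero]
        intro l' _
        rw [Matrix.single_apply_of_ne _ _ _ _ _ (fun h => hl h.1.symm), zero_mul]
      · intro h; exact absurd (Finset.mem_univ _) h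
    rw [e, e]
    have e2 : (Q * β * P) j i = Q j 1 * P 1 i - Q j 2 * P 2 i := by
      rw [Matrix.mul_apply, Fin.sum_univ_three]
      simp only [β, Matrix.mul_diagonal]
      simp
      ring
    rw [e2]
    ring
  -- β is fixed modulo π
  have hred : ∀ i j, L.red ((g.val * β * (g⁻¹ : GL (Fin 3) A).val) j i) = L.red (β j i) := by
    intro i j
    by_contra hne
    set s := (g.val * β * (g⁻¹ : GL (Fin 3) A).val) j i with hs
    set t := β j i with ht
    have hunit : IsUnit (s - t) := by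
      rw [L.isUnit_iff, map_sub]
      exact sub_ne_zero.2 hne
    obtain ⟨a, ha⟩ := hunit.exists_right_inv
    have h3 := hg (Matrix.single i j a)
    rw [key] at h3
    have h4 : (Matrix.single i j a) 1 1 - (Matrix.single i j a) 2 2 = a * t := by
      have := key 1 1 i j a
      simpa using this
    rw [h4, ← hs] at h3
    apply hχ
    have h5 : (1 + L.π : A) = (1 + L.π * (a * s)) * (1 - L.π * (a * t)) := by
      linear_combination (- L.π) * ha + (a ^ 2 * s * t) * L.sq
    rw [h5, map_mul, h3, ← map_mul]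
    have h6 : (1 + L.π * (a * t)) * (1 - L.π * (a * t)) = 1 := by
      linear_combination (- (a * t) ^ 2) * L.sq
    rw [h6, map_one]
  -- hence the reduction of `g` commutes with `β`
  have hcomm : ∀ i j, L.red (g i j) * L.red ((![0, 1, -1] : Fin 3 → A) j) =
      L.red ((![0, 1, -1] : Fin 3 → A) i) * L.red (g i j) := by
    intro i j
    have h3 : L.red.mapMatrix (g.val * β * (g⁻¹ : GL (Fin 3) A).val) = L.red.mapMatrix β := by
      ext i' j'
      exact hred j' i'
    have h4 : L.red.mapMatrix (g.val * β) = L.red.mapMatrix (β * g.val) := by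
      have h5 : g.val * β = (g.val * β * (g⁻¹ : GL (Fin 3) A).val) * g.val := by
        rw [Matrix.mul_assoc (g.val * β), ← Units.val_mul, inv_mul_cancel, Units.val_one, mul_one]
      rw [h5, map_mul, h3, ← map_mul]
    have h5 := congrFun (congrFun h4 i) j
    rw [RingHom.mapMatrix_apply, RingHom.mapMatrix_apply, Matrix.map_apply, Matrix.map_apply,
      Matrix.mul_diagonal, Matrix.diagonal_mul, map_mul, map_mul] at h5
    exact h5
  rw [L.mem_S]
  intro i j hij
  have h3 := hcomm i j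
  have h4 : L.red (g i j) * (L.red ((![0, 1, -1] : Fin 3 → A) j) -
      L.red ((![0, 1, -1] : Fin 3 → A) i)) = 0 := by
    rw [mul_sub, h3]; ring
  rcases mul_eq_zero.1 h4 with h5 | h5
  · exact h5
  · exfalso
    fin_cases i <;> fin_cases j <;> simp at hij h5
    · exact h2 (by linear_combination (-1 : k) * h5)
    · exact h2 (by linear_combination (1 : k) * h5)

/-- existence of a primitive irreducible representation of dimension `q^3(q+1)(q^2+q+1)` -/
theorem exists_rep [Finite A] [Finite k] (h2 : (2 : k) ≠ 0) :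
    ∃ (V : Type) (_ : AddCommGroup V) (_ : Module ℂ V) (ρ : Representation ℂ (GL (Fin 3) A) V),
      FiniteDimensional ℂ V ∧ Nontrivial V ∧ Irr ρ ∧ ρ (L.u (Matrix.single 1 1 1)) ≠ 1 ∧
      finrank ℂ V = Nat.card k ^ 3 * (Nat.card k + 1) * (Nat.card k ^ 2 + Nat.card k + 1) := by
  classical
  haveI : Finite (GL (Fin 3) A) := inferInstance
  have hA : Nontrivial A := by
    refine ⟨⟨0, 1, fun h => ?_⟩⟩
    have := congrArg L.red h
    rw [map_zero, map_one] at this
    exact zero_ne_one this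
  have hπ : (1 + L.π : A) ≠ 1 := by
    intro h
    have h1 : L.π * 1 = 0 := by linear_combination h
    rw [L.ann, map_one] at h1
    exact one_ne_zero h1
  obtain ⟨χ, hχ⟩ := MulChar.exists_apply_ne_one_of_hasEnoughRootsOfUnity A ℂ hπ
  obtain ⟨V, _, _, ρ, hfd, hirr, v, hv0, hv⟩ := exists_irr L.S (L.θ χ)
  have hu : ∀ X, ρ (L.u X) v = χ (1 + L.π * (X 1 1 - X 2 2)) • v := by
    intro X
    rw [← L.θ_u χ X (L.u_mem_S X)]
    exact hv ⟨L.u X, L.u_mem_S X⟩
  refine ⟨V, inferInstance, inferInstance, ρ, hfd, ⟨⟨v, 0, hv0⟩⟩, hirr, ?_, ?_⟩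
  · intro h
    have h1 := hu (Matrix.single 1 1 1)
    rw [h, Module.End.one_apply, Matrix.single_apply_same,
      Matrix.single_apply_of_ne _ _ _ _ _ (by decide), sub_zero, mul_one] at h1
    have h3 : (1 : ℂ) • v = χ (1 + L.π) • v := by rw [one_smul]; exact h1
    exact hχ (smul_left_injective ℂ hv0 h3).symm
  · have hidx : L.S.index =
        Nat.card k ^ 3 * (Nat.card k + 1) * (Nat.card k ^ 2 + Nat.card k + 1) := by
      rw [← index_T]
      exact (T k).index_comap_of_surjective L.r_surj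
    rw [← hidx]
    apply le_antisymm
    · exact finrank_le_index hirr L.S hv0 fun h hh => ⟨_, hv ⟨h, hh⟩⟩
    · have hKS : L.r.ker ≤ L.S := by
        intro x hx
        obtain ⟨X, rfl⟩ := L.exists_u hx
        exact L.u_mem_S X
      refine index_le_finrank ρ L.r.ker L.S ((L.θ χ).comp (Subgroup.inclusion hKS)) hv0
        (fun k => hv ⟨k, hKS k.2⟩) ?_
      intro g hg
      apply L.stab h2 χ hχ g
      intro X
      have h1 := hg ⟨L.u X, L.u_mem_ker X⟩
      rw [MonoidHom.comp_apply, MonoidHom.comp_apply] at h1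
      have h3 : L.θ χ ⟨L.u X, L.u_mem_S X⟩ = χ (1 + L.π * (X 1 1 - X 2 2)) := L.θ_u χ X _
      rw [← h3, ← L.θ_u χ _ (L.u_mem_S _)]
      refine Eq.trans (congrArg (L.θ χ) ?_) h1
      apply Subtype.ext
      exact (L.conj_u g X).symm

end LT

end

end Pool.Agent.Y58.Onn
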