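import Mathlib

set_option autoImplicit false

namespace Pool.Agent.Y58.Onn

open Module

variable {G : Type} [Group G] [Finite G] {V : Type} [AddCommGroup V] [Module ℂ V]

/-- irreducibility in the form of the frozen statement -/
def Irr (ρ : Representation ℂ G V) : Prop :=
  ∀ W : Submodule ℂ V, (∀ g v, v ∈ W → ρ g v ∈ W) → W = ⊥ ∨ W = ⊤

/-- upper bound for the dimension of an irreducible representation with an eigenvector of `H` -/
theorem finrank_le_index {ρ : Representation ℂ G V} (hρ : Irr ρ) (H : Subgroup G) {v : V}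
    (hv : v ≠ 0) (hH : ∀ h ∈ H, ∃ c : ℂ, ρ h v = c • v) :
    finrank ℂ V ≤ H.index := by
  classical
  haveI : Fintype (G ⧸ H) := Fintype.ofFinite _
  set f : G ⧸ H → V := fun x => ρ x.out v with hf
  set W : Submodule ℂ V := Submodule.span ℂ (Set.range f) with hW
  have key : ∀ g : G, ρ g v ∈ W := by
    intro g
    obtain ⟨h, hh⟩ := QuotientGroup.mk_out_eq_mul H g
    obtain ⟨c, hc⟩ := hH _ (H.inv_mem h.2)
    have h1 : g = ((g : G ⧸ H).out) * (h : G)⁻¹ := by rw [hh]; group
    have h2 : ρ g v = c • f (g : G ⧸ H) := by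
      conv_lhs => rw [h1]
      rw [map_mul]
      change ρ _ (ρ _ v) = _
      rw [hc, map_smul]
    rw [h2]
    exact W.smul_mem _ (Submodule.subset_span ⟨_, rfl⟩)
  have hinv : ∀ g u, u ∈ W → ρ g u ∈ W := by
    intro g u hu
    induction hu using Submodule.span_induction with
    | mem x hx =>
      obtain ⟨y, rfl⟩ := hx
      change ρ g (ρ y.out v) ∈ W
      have : ρ g (ρ y.out v) = ρ (g * y.out) v := by rw [map_mul]; rfl
      rw [this]
      exact key _
    | zero => simp
    | add x y _ _ hx hy => rw [map_add]; exact W.add_mem hx hy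
    | smul a x _ hx => rw [map_smul]; exact W.smul_mem _ hx
  rcases hρ W hinv with h | h
  · exfalso
    have h1 := key 1
    rw [h, Submodule.mem_bot] at h1
    apply hv
    simpa using h1
  · have h1 : finrank ℂ V = finrank ℂ W := by rw [h]; simp
    rw [h1, Subgroup.index, Nat.card_eq_fintype_card]
    exact (finrank_span_le_card (R := ℂ) (Set.range f)).trans (by
      rw [Set.toFinset_card]
      exact Fintype.card_range_le f)

/-- lower bound for the dimension of a representation with an eigenvector of a normal subgroup -/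
theorem index_le_finrank (ρ : Representation ℂ G V) [FiniteDimensional ℂ V] (K S : Subgroup G)
    [K.Normal] (ψ : K →* ℂ) {v : V} (hv : v ≠ 0) (hK : ∀ k : K, ρ k v = ψ k • v)
    (hS : ∀ g : G, (∀ k : K, ψ ⟨g⁻¹ * k * g, by
      simpa using Subgroup.Normal.conj_mem inferInstance (k : G) k.2 g⁻¹⟩ = ψ k) → g ∈ S) :
    S.index ≤ finrank ℂ V := by
  classical
  haveI : Fintype (G ⧸ S) := Fintype.ofFinite _
  let c : G → (K →* K) := fun g => (MulAut.conjNormal g⁻¹).toMonoidHom
  have hc : ∀ (g : G) (k : K), ((c g k : K) : G) = g⁻¹ * k * g := by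
    intro g k
    simp [c]
  let χ : G → (K →* ℂ) := fun g => ψ.comp (c g)
  have hχ : ∀ (g : G) (k : K), ρ k (ρ g v) = χ g k • ρ g v := by
    intro g k
    have h1 : ρ (k : G) (ρ g v) = ρ g (ρ ((c g k : K) : G) v) := by
      have : (k : G) * g = g * ((c g k : K) : G) := by rw [hc]; group
      calc ρ (k : G) (ρ g v) = ρ ((k : G) * g) v := by rw [map_mul]; rfl
        _ = ρ (g * ((c g k : K) : G)) v := by rw [this]
        _ = _ := by rw [map_mul]; rfl
    rw [h1, hK, map_smul]
    rfl
  have hinj : Function.Injective fun x : G ⧸ S => χ x.out := by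
    intro x y hxy
    have h1 : (y.out)⁻¹ * x.out ∈ S := by
      apply hS
      intro k
      have h2 := DFunLike.congr_fun hxy (c (y.out)⁻¹ k)
      simp only [χ, MonoidHom.comp_apply] at h2
      have e1 : c (Quotient.out x) (c (Quotient.out y)⁻¹ k) =
          ⟨((Quotient.out y)⁻¹ * (Quotient.out x))⁻¹ * k * ((Quotient.out y)⁻¹ * (Quotient.out x)), by
            simpa using Subgroup.Normal.conj_mem inferInstance (k : G) k.2
              ((Quotient.out y)⁻¹ * (Quotient.out x))⁻¹⟩ := by
        apply Subtype.ext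
        rw [hc, hc]
        simp only
        group
      have e2 : c (Quotient.out y) (c (Quotient.out y)⁻¹ k) = k := by
        apply Subtype.ext
        rw [hc, hc]
        group
      rw [e1, e2] at h2
      exact h2
    have h3 : (QuotientGroup.mk (y.out) : G ⧸ S) = QuotientGroup.mk (x.out) :=
      QuotientGroup.eq.2 h1
    rw [QuotientGroup.out_eq', QuotientGroup.out_eq'] at h3
    exact h3.symm
  have hli : LinearIndependent ℂ fun x : G ⧸ S => ρ x.out v := by
    have hind := (linearIndependent_monoidHom K ℂ).comp _ hinj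
    rw [Fintype.linearIndependent_iff] at hind ⊢
    intro a ha i
    by_contra hai
    have hne : ρ i.out v ≠ 0 := by
      intro h0
      apply hv
      have : ρ (i.out)⁻¹ (ρ i.out v) = v := by
        rw [← Module.End.mul_apply, ← map_mul]
        simp
      rw [← this, h0, map_zero]
    obtain ⟨f, hf⟩ : ∃ f : V →ₗ[ℂ] ℂ, f (ρ i.out v) ≠ 0 := by
      by_contra hcon
      push_neg at hcon
      exact hne ((Module.forall_dual_apply_eq_zero_iff ℂ _).1 hcon)
    have h1 := hind (fun x => a x * f (ρ x.out v)) (by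
      funext k
      have h2 : ρ (k : G) (∑ x, a x • ρ x.out v) = 0 := by rw [ha, map_zero]
      rw [map_sum] at h2
      have h3 := congrArg f h2
      rw [map_sum, map_zero] at h3
      rw [Finset.sum_apply]
      rw [Pi.zero_apply, ← h3]
      refine Finset.sum_congr rfl fun x _ => ?_
      rw [map_smul, hχ, map_smul, map_smul]
      simp only [Function.comp, Pi.smul_apply, smul_eq_mul]
      ring) i
    exact (mul_ne_zero hai hf) h1
  have := hli.fintype_card_le_finrank
  rwa [Subgroup.index, Nat.card_eq_fintype_card]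

/-- existence of an irreducible representation containing a given linear character of `S` -/
theorem exists_irr (S : Subgroup G) (θ : S →* ℂ) :
    ∃ (V : Type) (_ : AddCommGroup V) (_ : Module ℂ V) (ρ : Representation ℂ G V),
      FiniteDimensional ℂ V ∧ Irr ρ ∧ ∃ v : V, v ≠ 0 ∧ ∀ s : S, ρ s v = θ s • v := by
  classical
  have hθ : ∀ s : S, θ s ≠ 0 := fun s h => by
    have : θ (s * s⁻¹) = 0 := by rw [map_mul, h, zero_mul]
    rw [mul_inv_cancel, map_one] at this
    exact one_ne_zero this
  -- the left regular representation on functions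
  let ρ₀ : Representation ℂ G (G → ℂ) :=
    { toFun := fun g =>
        { toFun := fun f x => f (g⁻¹ * x)
          map_add' := fun _ _ => rfl
          map_smul' := fun _ _ => rfl }
      map_one' := by ext f x; simp
      map_mul' := fun a b => by ext f x; simp [mul_assoc] }
  have hρ₀ : ∀ (g : G) (f : G → ℂ) (x : G), ρ₀ g f x = f (g⁻¹ * x) := fun _ _ _ => rfl
  let P : ℕ → Prop := fun n => ∃ W : Subrepresentation ρ₀, finrank ℂ W.toSubmodule = n ∧
    ∃ v ∈ W.toSubmodule, v ≠ 0 ∧ ∀ s : S, ρ₀ s v = θ s • v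
  have hP : ∃ n, P n := by
    refine ⟨_, ⊤, rfl, fun x => if h : x ∈ S then (θ ⟨x, h⟩)⁻¹ else 0, Submodule.mem_top, ?_, ?_⟩
    · intro h0
      have h1 := congrFun h0 1
      simp only [S.one_mem, dite_true, Pi.zero_apply, inv_eq_zero] at h1
      exact hθ _ h1
    · intro s
      funext x
      rw [hρ₀, Pi.smul_apply, smul_eq_mul]
      by_cases hx : x ∈ S
      · have hsx : (s : G)⁻¹ * x ∈ S := S.mul_mem (S.inv_mem s.2) hx
        rw [dif_pos hx, dif_pos hsx]
        have : θ ⟨x, hx⟩ = θ s * θ ⟨(s : G)⁻¹ * x, hsx⟩ := by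
          rw [← map_mul]
          congr 1
          apply Subtype.ext
          simp
        rw [this, mul_inv, ← mul_assoc, mul_inv_cancel₀ (hθ s), one_mul]
      · have hsx : (s : G)⁻¹ * x ∉ S := by
          intro h
          apply hx
          have := S.mul_mem s.2 h
          simpa using this
        rw [dif_neg hx, dif_neg hsx, mul_zero]
  obtain ⟨W, hWn, v, hvW, hv0, hvs⟩ := Nat.find_spec hP
  have hmin : ∀ W' : Subrepresentation ρ₀, W'.toSubmodule < W.toSubmodule →
      ∀ u ∈ W'.toSubmodule, (∀ s : S, ρ₀ s u = θ s • u) → u = 0 := by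
    intro W' hlt u hu hs
    by_contra hu0
    have h1 : finrank ℂ W'.toSubmodule < finrank ℂ W.toSubmodule := Submodule.finrank_lt_finrank_of_lt hlt
    rw [hWn] at h1
    exact Nat.find_min hP h1 ⟨W', rfl, u, hu, hu0, hs⟩
  refine ⟨W.toSubmodule, inferInstance, inferInstance, W.toRepresentation, inferInstance, ?_,
    ⟨v, hvW⟩, ?_, ?_⟩
  · intro U hU
    -- the subrepresentation of `ρ₀` given by `U`
    let U' : Subrepresentation ρ₀ :=
      { toSubmodule := U.map W.toSubmodule.subtype
        apply_mem_toSubmodule := by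
          rintro g _ ⟨u, hu, rfl⟩
          exact ⟨W.toRepresentation g u, hU g u hu, rfl⟩ }
    have hU'W : U'.toSubmodule ≤ W.toSubmodule := Submodule.map_subtype_le _ _
    by_cases hUt : U = ⊤
    · exact Or.inr hUt
    left
    have hlt : U'.toSubmodule < W.toSubmodule := by
      refine lt_of_le_of_ne hU'W fun h => hUt ?_
      rw [eq_top_iff]
      rintro ⟨x, hx⟩ -
      have : x ∈ U'.toSubmodule := by rw [h]; exact hx
      obtain ⟨u, hu, hux⟩ := this
      have : u = ⟨x, hx⟩ := Subtype.ext hux
      rwa [← this]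
    obtain ⟨C, hC⟩ := exists_isCompl U'
    -- complement inside W
    let C' : Subrepresentation ρ₀ := C ⊓ W
    have hdec : ∃ u ∈ U'.toSubmodule, ∃ c ∈ C.toSubmodule, u + c = v := by
      have h1 : v ∈ (U' ⊔ C : Subrepresentation ρ₀).toSubmodule := by
        rw [hC.sup_eq_top]
        exact Submodule.mem_top
      exact Submodule.mem_sup.1 h1
    obtain ⟨u, hu, c, hc, huc⟩ := hdec
    have hdisj : ∀ x, x ∈ U'.toSubmodule → x ∈ C.toSubmodule → x = 0 := by
      intro x h1 h2
      have h3 : x ∈ (U' ⊓ C : Subrepresentation ρ₀).toSubmodule := ⟨h1, h2⟩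
      rw [hC.inf_eq_bot] at h3
      exact (Submodule.mem_bot ℂ).1 h3
    have heig : ∀ s : S, ρ₀ s u = θ s • u ∧ ρ₀ s c = θ s • c := by
      intro s
      have h1 : ρ₀ s u + ρ₀ s c = θ s • u + θ s • c := by
        rw [← map_add, huc, hvs, ← huc, smul_add]
      have h2 : ρ₀ s u - θ s • u = θ s • c - ρ₀ s c := by
        rw [sub_eq_sub_iff_add_eq_add, h1, add_comm]
      have h3 : ρ₀ s u - θ s • u = 0 := by
        apply hdisj
        · exact U'.toSubmodule.sub_mem (U'.apply_mem_toSubmodule _ hu) (U'.toSubmodule.smul_mem _ hu)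
        · rw [h2]
          exact C.toSubmodule.sub_mem (C.toSubmodule.smul_mem _ hc) (C.apply_mem_toSubmodule _ hc)
      refine ⟨sub_eq_zero.1 h3, ?_⟩
      rw [h3] at h2
      exact (sub_eq_zero.1 h2.symm).symm
    have hu0 : u = 0 := hmin U' hlt u hu fun s => (heig s).1
    have hcv : c = v := by rw [← huc, hu0, zero_add]
    by_contra hUb
    -- then C' is smaller than W
    have hlt' : C'.toSubmodule < W.toSubmodule := by
      refine lt_of_le_of_ne inf_le_right fun h => hUb ?_
      rw [eq_bot_iff]
      rintro ⟨x, hx⟩ hxU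
      have h1 : x ∈ C'.toSubmodule := by rw [h]; exact hx
      have h2 : x ∈ U'.toSubmodule := ⟨⟨x, hx⟩, hxU, rfl⟩
      have h3 := hdisj x h2 h1.1
      rw [Submodule.mem_bot]
      exact Subtype.ext h3
    exact hv0 (hmin C' hlt' v ⟨hcv ▸ hc, hvW⟩ hvs)
  · intro h
    exact hv0 (congrArg Subtype.val h)
  · intro s
    exact Subtype.ext (hvs s)

end Pool.Agent.Y58.Onn
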