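import Pool.Agent.Y58.Onn.Rep

set_option autoImplicit false

namespace Pool.Agent.Y58.Onn

open Module Matrix

/-- a ring `A` of length two with residue field `k` and uniformizer `π` -/
structure LT (A k : Type) [CommRing A] [Field k] where
  red : A →+* k
  π : A
  surj : Function.Surjective red
  sq : π * π = 0
  ker : ∀ a, red a = 0 ↔ ∃ b, a = π * b
  ann : ∀ a, π * a = 0 ↔ red a = 0

variable {A k : Type} [CommRing A] [Field k] (L : LT A k)

namespace LT

lemma red_pi : L.red L.π = 0 := (L.ker _).2 ⟨1, (mul_one _).symm⟩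

lemma isUnit_one_add (b : A) : IsUnit (1 + L.π * b) :=
  IsUnit.of_mul_eq_one (1 - L.π * b) (by linear_combination (-b ^ 2) * L.sq)

lemma isUnit_iff (a : A) : IsUnit a ↔ L.red a ≠ 0 := by
  constructor
  · intro h
    exact (h.map L.red).ne_zero
  · intro h
    obtain ⟨b, hb⟩ := L.surj (L.red a)⁻¹
    have h1 : L.red (a * b - 1) = 0 := by
      rw [map_sub, map_mul, hb, map_one, mul_inv_cancel₀ h, sub_self]
    obtain ⟨c, hc⟩ := (L.ker _).1 h1
    have h2 : a * b = 1 + L.π * c := by rw [← hc]; ring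
    have h3 : IsUnit (a * b) := h2 ▸ L.isUnit_one_add c
    exact isUnit_of_mul_isUnit_left h3

/-- `1 + π X` -/
def u (X : Matrix (Fin 3) (Fin 3) A) : GL (Fin 3) A where
  val := 1 + L.π • X
  inv := 1 - L.π • X
  val_inv := by
    have : (L.π • X) * (L.π • X) = 0 := by
      rw [smul_mul_smul_comm, L.sq, zero_smul]
    rw [mul_sub, mul_one, add_mul, one_mul, this]
    abel
  inv_val := by
    have : (L.π • X) * (L.π • X) = 0 := by
      rw [smul_mul_smul_comm, L.sq, zero_smul]
    rw [mul_add, mul_one, sub_mul, one_mul, this]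
    abel

lemma u_val (X : Matrix (Fin 3) (Fin 3) A) : (L.u X : Matrix (Fin 3) (Fin 3) A) = 1 + L.π • X := rfl

lemma u_mul (X Y : Matrix (Fin 3) (Fin 3) A) : L.u X * L.u Y = L.u (X + Y) := by
  apply Units.ext
  rw [Units.val_mul, u_val, u_val, u_val]
  have : (L.π • X) * (L.π • Y) = 0 := by
    rw [smul_mul_smul_comm, L.sq, zero_smul]
  rw [mul_add, mul_one, add_mul, one_mul, this, smul_add]
  abel

lemma u_congr {X Y : Matrix (Fin 3) (Fin 3) A} (h : ∀ i j, L.red (X i j) = L.red (Y i j)) :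
    L.u X = L.u Y := by
  apply Units.ext
  rw [u_val, u_val]
  congr 1
  ext i j
  rw [Matrix.smul_apply, Matrix.smul_apply, smul_eq_mul, smul_eq_mul, ← sub_eq_zero, ← mul_sub, L.ann, map_sub,
    h, sub_self]

lemma u_zero : L.u 0 = 1 := by
  apply Units.ext
  rw [u_val]
  simp

lemma conj_u (g : GL (Fin 3) A) (X : Matrix (Fin 3) (Fin 3) A) :
    g⁻¹ * L.u X * g = L.u ((g⁻¹ : GL (Fin 3) A).val * X * g.val) := by
  apply Units.ext
  rw [Units.val_mul, Units.val_mul, u_val, u_val]
  rw [mul_add, add_mul, mul_one, ← Units.val_mul, inv_mul_cancel, Units.val_one]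
  congr 1
  rw [Matrix.mul_smul, Matrix.smul_mul]

/-- reduction -/
def r : GL (Fin 3) A →* GL (Fin 3) k := Matrix.GeneralLinearGroup.map L.red

lemma r_apply (g : GL (Fin 3) A) (i j : Fin 3) : (L.r g) i j = L.red (g i j) := rfl

lemma r_surj : Function.Surjective L.r := by
  intro M
  choose f hf using L.surj
  set N : Matrix (Fin 3) (Fin 3) A := fun i j => f (M i j) with hN
  have hmap : L.red.mapMatrix N = (M : Matrix (Fin 3) (Fin 3) k) := by
    ext i j
    exact hf _
  have h1 : L.red N.det = (M : Matrix (Fin 3) (Fin 3) k).det := by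
    rw [RingHom.map_det, hmap]
  have h2 : IsUnit N.det := by
    rw [L.isUnit_iff, h1]
    exact ((Matrix.isUnit_iff_isUnit_det _).1 M.isUnit).ne_zero
  refine ⟨Matrix.GeneralLinearGroup.mk'' N h2, ?_⟩
  apply Units.ext
  exact hmap

lemma u_mem_ker (X : Matrix (Fin 3) (Fin 3) A) : L.u X ∈ L.r.ker := by
  rw [MonoidHom.mem_ker]
  apply Units.ext
  ext i j
  rw [L.r_apply, u_val, Matrix.add_apply, Matrix.smul_apply, smul_eq_mul, map_add, map_mul, L.red_pi, zero_mul,
    add_zero, Units.val_one]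
  by_cases h : i = j
  · subst h; simp
  · simp [h]

lemma exists_u {g : GL (Fin 3) A} (hg : g ∈ L.r.ker) : ∃ X, g = L.u X := by
  have h1 : ∀ i j, ∃ b, g.val i j - (1 : Matrix (Fin 3) (Fin 3) A) i j = L.π * b := by
    intro i j
    rw [← L.ker, map_sub]
    have h2 : L.r g = 1 := MonoidHom.mem_ker.1 hg
    have h3 : L.red (g.val i j) = (1 : Matrix (Fin 3) (Fin 3) k) i j := by
      rw [← L.r_apply, h2]
      rfl
    rw [h3]
    by_cases h : i = j
    · subst h; simp
    · simp [h]
  choose X0 hX using h1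
  let X : Matrix (Fin 3) (Fin 3) A := Matrix.of X0
  refine ⟨X, ?_⟩
  apply Units.ext
  ext i j
  rw [u_val, Matrix.add_apply, Matrix.smul_apply, smul_eq_mul]
  change _ = _ + L.π * X0 i j
  rw [← hX]
  abel

end LT

end Pool.Agent.Y58.Onn
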